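import Mathlib

/-!
# Project CC (MP_1d6ef7_nt): `Φ_n'` has at least `2k-1` real roots, `n` a product of `k` odd primes
-/

namespace Pool.Agent.X119.CC

open Polynomial Filter Topology

/-- `f` has at least `m` sign changes (for `m = 0`: `f` is not identically zero) -/
def Alt (f : ℝ → ℝ) (m : ℕ) : Prop := ∃ u : ℕ → ℝ, StrictMono u ∧ (∀ i ≤ m, f (u i) ≠ 0) ∧
  ∀ i < m, f (u i) * f (u (i + 1)) < 0

/-- iterated differences -/
def dif : List ℝ → (ℝ → ℝ) → (ℝ → ℝ)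
  | [], G => G
  | a :: l, G => fun u => dif l G (u + a) - dif l G u

/-- `e^u x Φ_n'(x) / Φ_n(x)` at `x = σ exp (-e^u)` (`σ = ±1`) -/
noncomputable def gg (n : ℕ) (σ : ℝ) (u : ℝ) : ℝ :=
  Real.exp u * (σ * Real.exp (-Real.exp u)) *
    ((derivative (cyclotomic n ℝ)).eval (σ * Real.exp (-Real.exp u)) /
      (cyclotomic n ℝ).eval (σ * Real.exp (-Real.exp u)))

/-- ROLLE. Proof: mean value theorem between consecutive points `u i`, `u (i+1)` gives a point where `F'`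
has the sign of `F (u (i+1)) - F (u i)`, i.e. of `F (u (i+1))`; before `u 0` (as `F → 0` at `-∞`, take a point
`w < u 0` with `|F w| < |F (u 0)|`) a point where `F'` has the sign of `F (u 0)`; after `u m` one where `F'` has
the opposite sign of `F (u m)`. (Continue the sequence of points strictly increasing beyond index `m+1`.) -/
def S_ROLLE : Prop := ∀ (F F' : ℝ → ℝ) (m : ℕ), (∀ u, HasDerivAt F (F' u) u) →
  Tendsto F atTop (𝓝 0) → Tendsto F atBot (𝓝 0) → Alt F m → Alt F' (m + 1)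

/-- GM. `gg 1 (-1) u = e^u y/(1+y)`, `y = exp (-e^u)`, at most `t e^{-t}` with `t = e^u`. -/
def S_GM : Prop := (∀ u, 0 < gg 1 (-1) u) ∧ Continuous (gg 1 (-1)) ∧
  Tendsto (gg 1 (-1)) atTop (𝓝 0) ∧ Tendsto (gg 1 (-1)) atBot (𝓝 0)

/-- GP. `Φ_p = 1 + x + ... + x^(p-1)` (`cyclotomic_prime`), so for `0 < x < 1`:
`0 < Φ_p'(x) ≤ p²`, `Φ_p(x) ≥ 1`, `0 < gg p 1 u ≤ p² t e^{-t}` with `t = e^u`. -/
def S_GP : Prop := ∀ p : ℕ, p.Prime → Odd p → (∀ u, 0 < gg p 1 u) ∧ Continuous (gg p 1) ∧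
  Tendsto (gg p 1) atTop (𝓝 0) ∧ Tendsto (gg p 1) atBot (𝓝 0)

/-- CYC. Induction on `l`, from `cyclotomic_expand_eq_cyclotomic_mul` : `Φ_n(x^p) = Φ_{np}(x) Φ_n(x)` for
`p ∤ n` prime; logarithmic derivative: `x Φ_{np}'(x)/Φ_{np}(x) = p x^p Φ_n'(x^p)/Φ_n(x^p) - x Φ_n'(x)/Φ_n(x)`;
at `x = σ e^{-t}`: `x^p = σ e^{-pt}` (`p` odd), so `gg (p n) σ u = gg n σ (u + log p) - gg n σ u`.
`Φ_n` does not vanish on `(-1, 1)` (`x^n ≠ 1`). -/
def S_CYC : Prop := ∀ σ : ℝ, (σ = 1 ∨ σ = -1) → ∀ (m : ℕ), 0 < m → ∀ l : List ℕ,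
  (∀ p ∈ l, p.Prime ∧ Odd p ∧ ¬ p ∣ m) → l.Nodup →
  gg (l.prod * m) σ = dif (l.map (fun p : ℕ => Real.log p)) (gg m σ)

/-- CNT. Intermediate value theorem: zeros of `gg n σ` are zeros of `Φ_n'` at `σ exp (-e^u)` (injective in
`u`); `k` zeros in `(-1,0)`, `k - 1` zeros in `(0,1)`. `Φ_n` does not vanish on `(-1,1)`. -/
def S_CNT : Prop := ∀ n k : ℕ, 1 ≤ n → 1 ≤ k → Alt (gg n (-1)) k → Alt (gg n 1) (k - 1) →
  2 * k - 1 ≤ (derivative (cyclotomic n ℝ)).roots.card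

/-- SMOOTH (helper119 does it). -/
def S_SM : Prop := ∀ (l : List ℝ) (G : ℝ → ℝ), (∀ a ∈ l, 0 < a) → (∀ u, 0 < G u) → Continuous G →
  Tendsto G atTop (𝓝 0) → Tendsto G atBot (𝓝 0) → Alt (dif l G) l.length

end Pool.Agent.X119.CC
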