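import Mathlib
import Pool.Agent.X119.CC.Stm

namespace Pool.Agent.X119.CC

open Filter Topology MeasureTheory

noncomputable def Av (a : ℝ) (F : ℝ → ℝ) : ℝ → ℝ := fun u => ∫ t in u..(u + a), F t

lemma Av_hasDeriv (a : ℝ) (F : ℝ → ℝ) (hF : Continuous F) (u : ℝ) :
    HasDerivAt (Av a F) (F (u + a) - F u) u := by
  have h0 : ∀ x : ℝ, HasDerivAt (fun y => ∫ t in (0:ℝ)..y, F t) (F x) x := fun x =>
    (hF.integral_hasStrictDerivAt 0 x).hasDerivAt
  have h1 : HasDerivAt (fun y => ∫ t in (0:ℝ)..(y + a), F t) (F (u + a)) u := by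
    have := (h0 (u + a)).comp_add_const u a
    exact this
  have h2 := h1.sub (h0 u)
  refine h2.congr_of_eventuallyEq (Eventually.of_forall fun y => ?_)
  unfold Av
  have := intervalIntegral.integral_interval_sub_left (μ := volume) (hF.intervalIntegrable 0 (y + a))
    (hF.intervalIntegrable 0 y)
  exact this.symm

lemma Av_cont (a : ℝ) (F : ℝ → ℝ) (hF : Continuous F) : Continuous (Av a F) :=
  continuous_iff_continuousAt.mpr fun u => (Av_hasDeriv a F hF u).continuousAt

lemma Av_pos (a : ℝ) (ha : 0 < a) (F : ℝ → ℝ) (hF : Continuous F) (h : ∀ u, 0 < F u) (u : ℝ) :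
    0 < Av a F u :=
  intervalIntegral.intervalIntegral_pos_of_pos (hF.intervalIntegrable _ _) h (by linarith)

lemma Av_top (a : ℝ) (ha : 0 < a) (F : ℝ → ℝ) (h : Tendsto F atTop (𝓝 0)) :
    Tendsto (Av a F) atTop (𝓝 0) := by
  rw [Metric.tendsto_atTop] at h ⊢
  intro ε hε
  obtain ⟨N, hN⟩ := h (ε / (2 * a)) (by positivity)
  refine ⟨N, fun u hu => ?_⟩
  rw [dist_zero_right]
  have := intervalIntegral.norm_integral_le_of_norm_le_const (a := u) (b := u + a) (f := F)
    (C := ε / (2 * a)) (fun x hx => by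
      rw [Set.uIoc_of_le (by linarith)] at hx
      have := hN x (le_trans hu hx.1.le)
      rw [dist_zero_right] at this
      exact this.le)
  rw [show |u + a - u| = a by rw [add_sub_cancel_left, abs_of_pos ha]] at this
  unfold Av
  have e : ε / (2 * a) * a = ε / 2 := by field_simp
  rw [e] at this
  linarith

lemma Av_bot (a : ℝ) (ha : 0 < a) (F : ℝ → ℝ) (h : Tendsto F atBot (𝓝 0)) :
    Tendsto (Av a F) atBot (𝓝 0) := by
  rw [Metric.tendsto_nhds] at h ⊢
  intro ε hε
  have h1 := h (ε / (2 * a)) (by positivity)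
  rw [eventually_atBot] at h1 ⊢
  obtain ⟨N, hN⟩ := h1
  refine ⟨N - a, fun u hu => ?_⟩
  rw [dist_zero_right]
  have := intervalIntegral.norm_integral_le_of_norm_le_const (a := u) (b := u + a) (f := F)
    (C := ε / (2 * a)) (fun x hx => by
      rw [Set.uIoc_of_le (by linarith)] at hx
      have := hN x (by linarith [hx.2])
      rw [dist_zero_right] at this
      exact this.le)
  rw [show |u + a - u| = a by rw [add_sub_cancel_left, abs_of_pos ha]] at this
  unfold Av
  have e : ε / (2 * a) * a = ε / 2 := by field_simp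
  rw [e] at this
  linarith

noncomputable def Sm : List ℝ → (ℝ → ℝ) → (ℝ → ℝ)
  | [], F => F
  | a :: l, F => Av a (Sm l F)

def Dd (a : ℝ) (F : ℝ → ℝ) : ℝ → ℝ := fun u => F (u + a) - F u

lemma Sm_cont (l : List ℝ) (F : ℝ → ℝ) (hF : Continuous F) : Continuous (Sm l F) := by
  induction l with
  | nil => exact hF
  | cons a l ih => exact Av_cont a _ ih

lemma Sm_pos (l : List ℝ) (hl : ∀ a ∈ l, 0 < a) (F : ℝ → ℝ) (hF : Continuous F) (h : ∀ u, 0 < F u) :
    ∀ u, 0 < Sm l F u := by
  induction l with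
  | nil => exact h
  | cons a l ih =>
    exact Av_pos a (hl a (by simp)) _ (Sm_cont l F hF) (ih (fun b hb => hl b (by simp [hb])))

lemma Sm_top (l : List ℝ) (hl : ∀ a ∈ l, 0 < a) (F : ℝ → ℝ) (h : Tendsto F atTop (𝓝 0)) :
    Tendsto (Sm l F) atTop (𝓝 0) := by
  induction l with
  | nil => exact h
  | cons a l ih =>
    exact Av_top a (hl a (by simp)) _ (ih (fun b hb => hl b (by simp [hb])))

lemma Sm_bot (l : List ℝ) (hl : ∀ a ∈ l, 0 < a) (F : ℝ → ℝ) (h : Tendsto F atBot (𝓝 0)) :
    Tendsto (Sm l F) atBot (𝓝 0) := by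
  induction l with
  | nil => exact h
  | cons a l ih =>
    exact Av_bot a (hl a (by simp)) _ (ih (fun b hb => hl b (by simp [hb])))

lemma Sm_append (l : List ℝ) (a : ℝ) (F : ℝ → ℝ) : Sm (l ++ [a]) F = Sm l (Av a F) := by
  induction l with
  | nil => rfl
  | cons b l ih => simp only [List.cons_append, Sm, ih]

lemma Sm_hasDeriv (l : List ℝ) (X X' : ℝ → ℝ) (hX' : Continuous X') (h : ∀ u, HasDerivAt X (X' u) u) :
    ∀ u, HasDerivAt (Sm l X) (Sm l X' u) u := by
  have hX : Continuous X := continuous_iff_continuousAt.mpr fun u => (h u).continuousAt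
  induction l with
  | nil => exact h
  | cons b l ih =>
    intro u
    have h1 := Av_hasDeriv b (Sm l X) (Sm_cont l X hX) u
    have h2 : Sm (b :: l) X' u = Sm l X (u + b) - Sm l X u := by
      show ∫ t in u..(u + b), Sm l X' t = _
      exact intervalIntegral.integral_eq_sub_of_hasDerivAt (fun x _ => ih x)
        ((Sm_cont l X' hX').intervalIntegrable _ _)
    rw [h2]
    exact h1

lemma dif_cont (L : List ℝ) (G : ℝ → ℝ) (hG : Continuous G) : Continuous (dif L G) := by
  induction L with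
  | nil => exact hG
  | cons a L ih =>
    show Continuous (fun u => dif L G (u + a) - dif L G u)
    exact (ih.comp (continuous_id.add continuous_const)).sub ih

lemma dif_top (L : List ℝ) (G : ℝ → ℝ) (hG : Tendsto G atTop (𝓝 0)) : Tendsto (dif L G) atTop (𝓝 0) := by
  induction L with
  | nil => exact hG
  | cons a L ih =>
    show Tendsto (fun u => dif L G (u + a) - dif L G u) atTop (𝓝 0)
    have := (ih.comp (tendsto_atTop_add_const_right atTop a tendsto_id)).sub ih
    simpa using this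

lemma dif_bot (L : List ℝ) (G : ℝ → ℝ) (hG : Tendsto G atBot (𝓝 0)) : Tendsto (dif L G) atBot (𝓝 0) := by
  induction L with
  | nil => exact hG
  | cons a L ih =>
    show Tendsto (fun u => dif L G (u + a) - dif L G u) atBot (𝓝 0)
    have := (ih.comp (tendsto_atBot_add_const_right atBot a tendsto_id)).sub ih
    simpa using this

theorem alt_dif (hR : S_ROLLE) (G : ℝ → ℝ) (hpos : ∀ u, 0 < G u) (hG : Continuous G)
    (ht : Tendsto G atTop (𝓝 0)) (hb : Tendsto G atBot (𝓝 0)) (L : List ℝ) (hL : ∀ a ∈ L, 0 < a) :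
    ∀ l : List ℝ, (∀ a ∈ l, 0 < a) → Alt (Sm l (dif L G)) L.length := by
  induction L with
  | nil =>
    intro l hl
    refine ⟨fun i => (i : ℝ), Nat.strictMono_cast, fun i _ => ?_, fun i hi => ?_⟩
    · exact (Sm_pos l hl G hG hpos _).ne'
    · simp at hi
  | cons a L ih =>
    intro l hl
    have ha : 0 < a := hL a (by simp)
    have hL' : ∀ b ∈ L, 0 < b := fun b hb => hL b (by simp [hb])
    have h1 := ih hL' (l ++ [a]) (by
      intro b hb
      rcases List.mem_append.mp hb with h | h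
      · exact hl b h
      · rw [List.mem_singleton.mp h]; exact ha)
    rw [Sm_append] at h1
    have hZ := dif_cont L G hG
    have h2 := Sm_hasDeriv l (Av a (dif L G)) (Dd a (dif L G))
      ((hZ.comp (continuous_id.add continuous_const)).sub hZ) (Av_hasDeriv a _ hZ)
    exact hR _ _ _ h2 (Sm_top l hl _ (Av_top a ha _ (dif_top L G ht)))
      (Sm_bot l hl _ (Av_bot a ha _ (dif_bot L G hb))) h1

theorem t_SM (hR : S_ROLLE) : S_SM := by
  intro l G hl hpos hG ht hb
  exact alt_dif hR G hpos hG ht hb l hl [] (by simp)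

/-- assembly -/
theorem main (hR : S_ROLLE) (hGM : S_GM) (hGP : S_GP) (hCYC : S_CYC) (hCNT : S_CNT)
    (l : List ℕ) (hl : ∀ p ∈ l, p.Prime ∧ Odd p) (hn : l.Nodup) (h0 : l ≠ []) :
    2 * l.length - 1 ≤ (Polynomial.derivative (Polynomial.cyclotomic l.prod ℝ)).roots.card := by
  have hpos : ∀ p ∈ l, 0 < Real.log (p : ℝ) := fun p hp =>
    Real.log_pos (by exact_mod_cast (hl p hp).1.one_lt)
  have hlen : 1 ≤ l.length := List.length_pos_iff.mpr h0
  apply hCNT l.prod l.length
  · exact Nat.pos_of_ne_zero (List.prod_ne_zero (fun h => (hl 0 h).1.ne_zero rfl))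
  · exact hlen
  · have h1 := hCYC (-1) (Or.inr rfl) 1 one_pos l (fun p hp => ⟨(hl p hp).1, (hl p hp).2, by
      intro h
      exact (hl p hp).1.one_lt.ne' (Nat.dvd_one.mp h)⟩) hn
    rw [mul_one] at h1
    rw [h1]
    have h2 := t_SM hR (l.map (fun p : ℕ => Real.log p)) (gg 1 (-1)) (by
      intro a ha
      obtain ⟨p, hp, rfl⟩ := List.mem_map.mp ha
      exact hpos p hp) hGM.1 hGM.2.1 hGM.2.2.1 hGM.2.2.2
    rwa [List.length_map] at h2
  · obtain ⟨p, l', rfl⟩ : ∃ p l', l = p :: l' := by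
      cases l with
      | nil => exact absurd rfl h0
      | cons p l' => exact ⟨p, l', rfl⟩
    have hp := hl p (by simp)
    have hn' := List.nodup_cons.mp hn
    have h1 := hCYC 1 (Or.inl rfl) p hp.1.pos l' (fun q hq => ⟨(hl q (by simp [hq])).1,
      (hl q (by simp [hq])).2, by
      intro h
      have := (Nat.prime_dvd_prime_iff_eq (hl q (by simp [hq])).1 hp.1).mp h
      subst this
      exact hn'.1 hq⟩) hn'.2
    rw [List.prod_cons, mul_comm p, h1]
    have hg := hGP p hp.1 hp.2
    have h2 := t_SM hR (l'.map (fun p : ℕ => Real.log p)) (gg p 1) (by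
      intro a ha
      obtain ⟨q, hq, rfl⟩ := List.mem_map.mp ha
      exact hpos q (by simp [hq])) hg.1 hg.2.1 hg.2.2.1 hg.2.2.2
    rw [List.length_map] at h2
    simpa using h2

end Pool.Agent.X119.CC
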